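import Mathlib

/-!
# Intersections with free factors: homomorphisms extend; rank bounds; the group `U4`
-/

set_option autoImplicit false

namespace Pool.Agent.Q24.Ech

open Function
open scoped commutatorElement

/-- free of rank `r` -/
def HasRank {F : Type} [Group F] (H : Subgroup F) (r : ℕ) : Prop :=
  Nonempty (FreeGroup (Fin r) ≃* H)

section ext

variable {Γ : Type} [Group Γ] {n : ℕ} (X : FreeGroupBasis (Fin n) Γ)

theorem closure_basis : Subgroup.closure (Set.range X) = ⊤ := by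
  rw [eq_top_iff]
  intro g _
  have h1 : ∀ w : FreeGroup (Fin n), X.repr.symm w ∈ Subgroup.closure (Set.range X) := by
    intro w
    induction w using FreeGroup.induction_on with
    | C1 => rw [map_one]; exact Subgroup.one_mem _
    | of i =>
      apply Subgroup.subset_closure
      refine ⟨i, ?_⟩
      rw [MulEquiv.eq_symm_apply]
      exact X.repr_apply_coe i
    | inv_of i hi => rw [map_inv]; exact Subgroup.inv_mem _ hi
    | mul x y hx hy => rw [map_mul]; exact Subgroup.mul_mem _ hx hy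
  have h2 := h1 (X.repr g)
  simpa using h2

theorem lift_basis {N : Type} [Group N] (f : Fin n → N) (i : Fin n) : X.lift f (X i) = f i := by
  have := congrFun (X.lift.symm_apply_apply f) i
  exact this

open Classical in
/-- **Homomorphisms of `K ∩ A` extend to `K` if `A` is a free factor.** -/
theorem extend (S : Set (Fin n)) (K A : Subgroup Γ) (hA : A = Subgroup.closure (X '' S))
    {C : Type} [AddCommGroup C] (f : ↥(K ⊓ A) →* Multiplicative C) :
    ∃ F : K →* Multiplicative C, ∀ (l : Γ) (h : l ∈ K ⊓ A), F ⟨l, h.1⟩ = f ⟨l, h⟩ := by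
  -- the additive form of `f` on elements
  let φ : Γ → C := fun l => if h : l ∈ K ⊓ A then (f ⟨l, h⟩).toAdd else 0
  have hφ : ∀ {l : Γ} (h : l ∈ K ⊓ A), φ l = (f ⟨l, h⟩).toAdd := fun {l} h => by
    simp only [φ, dif_pos h]
  have hφm : ∀ {l l' : Γ}, l ∈ K ⊓ A → l' ∈ K ⊓ A → φ (l * l') = φ l + φ l' := by
    intro l l' h h'
    rw [hφ h, hφ h', hφ (mul_mem h h'), ← toAdd_mul, ← map_mul]
    rfl
  have hφ1 : φ 1 = 0 := by
    have := hφm (one_mem (K ⊓ A)) (one_mem (K ⊓ A))
    rw [mul_one] at this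
    exact left_eq_add.1 this
  -- a section of `A → Γ ⧸ K` on its image
  let T : Γ ⧸ K → Prop := fun q => ∃ a ∈ A, (a : Γ ⧸ K) = q
  let s : Γ ⧸ K → Γ := fun q => if h : T q then h.choose else 1
  have hs : ∀ q, T q → s q ∈ A ∧ (s q : Γ ⧸ K) = q := by
    intro q h
    simp only [s, dif_pos h]
    exact h.choose_spec
  -- `u (a l) = u a + f l`
  let u : Γ → C := fun a => φ ((s (a : Γ ⧸ K))⁻¹ * a)
  have hmem : ∀ a ∈ A, (s (a : Γ ⧸ K))⁻¹ * a ∈ K ⊓ A := by
    intro a ha
    obtain ⟨h1, h2⟩ := hs (a : Γ ⧸ K) ⟨a, ha, rfl⟩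
    exact ⟨QuotientGroup.eq.1 h2, A.mul_mem (A.inv_mem h1) ha⟩
  have hu : ∀ a ∈ A, ∀ l ∈ K ⊓ A, u (a * l) = u a + φ l := by
    intro a ha l hl
    have h1 : ((a * l : Γ) : Γ ⧸ K) = (a : Γ ⧸ K) := by
      rw [eq_comm, QuotientGroup.eq, inv_mul_cancel_left]
      exact hl.1
    simp only [u]
    rw [h1, ← mul_assoc, hφm (hmem a ha) hl]
  -- the increments
  let δ : Fin n → Γ ⧸ K → C := fun i q =>
    if i ∈ S ∧ T q then u (X i * s q) - u (s q) else 0
  have hδ : ∀ i ∈ S, ∀ a ∈ A, δ i (a : Γ ⧸ K) = u (X i * a) - u a := by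
    intro i hi a ha
    have hT : T (a : Γ ⧸ K) := ⟨a, ha, rfl⟩
    obtain ⟨h1, h2⟩ := hs _ hT
    have hX : X i ∈ A := hA ▸ Subgroup.subset_closure ⟨i, hi, rfl⟩
    have h3 := hmem a ha
    have e1 : u a = u (s (a : Γ ⧸ K)) + φ ((s (a : Γ ⧸ K))⁻¹ * a) := by
      rw [← hu _ h1 _ h3, mul_inv_cancel_left]
    have e2 : u (X i * a) = u (X i * s (a : Γ ⧸ K)) + φ ((s (a : Γ ⧸ K))⁻¹ * a) := by
      rw [← hu _ (mul_mem hX h1) _ h3]
      congr 1
      group
    simp only [δ, if_pos (And.intro hi hT)]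
    rw [e1, e2]
    abel
  -- the action on `(Γ ⧸ K) × C`
  let E : Fin n → Equiv.Perm ((Γ ⧸ K) × C) := fun i =>
    { toFun := fun p => (X i • p.1, p.2 + δ i p.1)
      invFun := fun p => ((X i)⁻¹ • p.1, p.2 - δ i ((X i)⁻¹ • p.1))
      left_inv := fun p => by simp
      right_inv := fun p => by simp }
  let Φ : Γ →* Equiv.Perm ((Γ ⧸ K) × C) := X.lift E
  have hΦX : ∀ i p, Φ (X i) p = (X i • p.1, p.2 + δ i p.1) := by
    intro i p
    show (X.lift E (X i)) p = _
    rw [lift_basis]
    rfl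
  -- the first component, and translations
  let Q : Subgroup Γ :=
    { carrier := {g | ∀ q c d, (Φ g (q, c + d)) = (g • q, (Φ g (q, c)).2 + d)}
      one_mem' := by intro q c d; simp
      mul_mem' := by
        intro g h hg hh q c d
        simp only [map_mul, Equiv.Perm.mul_apply, mul_smul]
        rw [hh q c d, hg (h • q) (Φ h (q, c)).2 d]
        have h1 : Φ h (q, c) = (h • q, (Φ h (q, c)).2) := by
          have := hh q c 0
          rw [add_zero, add_zero] at this
          exact this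
        rw [← h1]
      inv_mem' := by
        intro g hg q c d
        have h0 : ∀ q c, Φ g (q, c) = (g • q, (Φ g (q, c)).2) := by
          intro q c
          have := hg q c 0
          rw [add_zero, add_zero] at this
          exact this
        obtain ⟨q', c', h1⟩ : ∃ q' c', Φ g⁻¹ (q, c) = (q', c') := ⟨_, _, rfl⟩
        have h2 : Φ g (q', c') = (q, c) := by
          rw [← h1, ← Equiv.Perm.mul_apply, ← map_mul, mul_inv_cancel, map_one]
          rfl
        have h3 : g • q' = q ∧ (Φ g (q', c')).2 = c := by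
          have := h0 q' c'
          rw [h2] at this
          exact ⟨(congrArg Prod.fst this).symm, by rw [h2]⟩
        have h4 : Φ g (q', c' + d) = (q, c + d) := by
          rw [hg q' c' d, h3.1, h3.2]
        have h5 : Φ g⁻¹ (q, c + d) = (q', c' + d) := by
          rw [← h4, ← Equiv.Perm.mul_apply, ← map_mul, inv_mul_cancel, map_one]
          rfl
        rw [h5, h1, ← h3.1, inv_smul_smul] }
  have hQ : ∀ g, g ∈ Q := by
    have : Q = ⊤ := by
      rw [eq_top_iff, ← closure_basis X, Subgroup.closure_le]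
      rintro _ ⟨i, rfl⟩ q c d
      rw [hΦX, hΦX]
      simp only [Prod.mk.injEq, true_and]
      abel
    intro g
    rw [this]
    trivial
  -- on `A`
  let R : Subgroup Γ :=
    { carrier := {g | g ∈ A ∧ ∀ a ∈ A, Φ g ((a : Γ ⧸ K), u a) = (((g * a : Γ) : Γ ⧸ K), u (g * a))}
      one_mem' := ⟨one_mem _, by intro a _; simp⟩
      mul_mem' := by
        rintro g h ⟨hg1, hg2⟩ ⟨hh1, hh2⟩
        refine ⟨mul_mem hg1 hh1, fun a ha => ?_⟩
        rw [map_mul, Equiv.Perm.mul_apply, hh2 a ha, hg2 _ (mul_mem hh1 ha), mul_assoc]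
      inv_mem' := by
        rintro g ⟨hg1, hg2⟩
        refine ⟨inv_mem hg1, fun a ha => ?_⟩
        have h1 := hg2 (g⁻¹ * a) (mul_mem (inv_mem hg1) ha)
        rw [mul_inv_cancel_left] at h1
        rw [← h1, ← Equiv.Perm.mul_apply, ← map_mul, inv_mul_cancel, map_one]
        rfl }
  have hR : ∀ g ∈ A, g ∈ R := by
    have : A ≤ R := by
      rw [hA, Subgroup.closure_le]
      rintro _ ⟨i, hi, rfl⟩
      refine ⟨hA ▸ Subgroup.subset_closure ⟨i, hi, rfl⟩, fun a ha => ?_⟩
      rw [hΦX]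
      have := hδ i hi a ha
      simp only [Prod.mk.injEq]
      refine ⟨rfl, ?_⟩
      rw [this]
      abel
    exact fun g hg => this hg
  -- the extension
  have hfix : ∀ k ∈ K, k • ((1 : Γ) : Γ ⧸ K) = ((1 : Γ) : Γ ⧸ K) := by
    intro k hk
    rw [MulAction.Quotient.smul_mk]
    rw [eq_comm, QuotientGroup.eq]
    simpa using hk
  let v : Γ → C := fun k => (Φ k (((1 : Γ) : Γ ⧸ K), 0)).2
  have hv : ∀ k ∈ K, ∀ k' ∈ K, v (k * k') = v k + v k' := by
    intro k hk k' hk'
    have h1 : Φ k' (((1 : Γ) : Γ ⧸ K), 0) = (((1 : Γ) : Γ ⧸ K), v k') := by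
      have := hQ k' ((1 : Γ) : Γ ⧸ K) 0 0
      rw [add_zero, add_zero, hfix k' hk'] at this
      exact this
    have h2 := hQ k ((1 : Γ) : Γ ⧸ K) 0 (v k')
    rw [zero_add] at h2
    show (Φ (k * k') (((1 : Γ) : Γ ⧸ K), 0)).2 = _
    rw [map_mul, Equiv.Perm.mul_apply, h1, h2]
  refine ⟨MonoidHom.mk' (fun k => Multiplicative.ofAdd (v k.1)) ?_, ?_⟩
  · intro k k'
    show Multiplicative.ofAdd (v (k.1 * k'.1)) = _
    rw [hv _ k.2 _ k'.2, ofAdd_add]
  · intro l h
    show Multiplicative.ofAdd (v l) = f ⟨l, h⟩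
    have h1 := (hR l h.2).2 1 (one_mem _)
    rw [mul_one] at h1
    have h2 := hQ l ((1 : Γ) : Γ ⧸ K) 0 (u 1)
    rw [zero_add, h1] at h2
    have h3 : u l = v l + u 1 := congrArg Prod.snd h2
    have h4 : u l = u 1 + φ l := by
      have := hu 1 (one_mem _) l h
      rwa [one_mul] at this
    have h5 : v l = φ l := by
      rw [h4, add_comm] at h3
      exact (add_right_cancel h3).symm
    rw [h5, hφ h]
    rfl

end ext

section rank

variable {Γ : Type} [Group Γ]

/-- enough homomorphisms bound the rank from below -/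
theorem rank_ge {K : Subgroup Γ} {r : ℕ} (h : HasRank K r) {m : ℕ} (g : Fin m → K)
    (f : Fin m → (K →* Multiplicative ℚ))
    (hfg : ∀ i j, (f i (g j)).toAdd = if i = j then 1 else 0) : m ≤ r := by
  obtain ⟨e⟩ := h
  have hli : LinearIndependent ℚ
      (fun i : Fin m => fun t : Fin r => (f i (e (FreeGroup.of t))).toAdd) := by
    rw [Fintype.linearIndependent_iff]
    intro c hc j
    let F : K →* Multiplicative ℚ := MonoidHom.mk'
      (fun k => Multiplicative.ofAdd (∑ i, c i * (f i k).toAdd)) (by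
        intro a b
        rw [← ofAdd_add, ← Finset.sum_add_distrib]
        congr 1
        refine Finset.sum_congr rfl fun i _ => ?_
        rw [map_mul, toAdd_mul, mul_add])
    have h1 : F.comp e.toMonoidHom = 1 := by
      ext t
      have := congrFun hc t
      simp only [Finset.sum_apply, Pi.smul_apply, smul_eq_mul, Pi.zero_apply] at this
      exact this
    have h2 : F (g j) = 1 := by
      have := DFunLike.congr_fun h1 (e.symm (g j))
      simpa using this
    have h3 : (∑ i, c i * (f i (g j)).toAdd) = 0 := h2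
    simp only [hfg, mul_ite, mul_one, mul_zero, Finset.sum_ite_eq', Finset.mem_univ,
      if_true] at h3
    exact h3
  have := hli.fintype_card_le_finrank
  simpa using this

/-- a group of rank at least two has two independent homomorphisms to `ℚ` -/
theorem exists_homs {L : Subgroup Γ} {s : ℕ} (h : HasRank L s) (hs : 2 ≤ s) :
    ∃ (l : Fin 2 → L) (f : Fin 2 → (L →* Multiplicative ℚ)),
      ∀ i j, (f i (l j)).toAdd = if i = j then 1 else 0 := by
  obtain ⟨e⟩ := h
  let ι : Fin 2 → Fin s := Fin.castLE hs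
  have hι : Injective ι := Fin.castLE_injective hs
  refine ⟨fun j => e (FreeGroup.of (ι j)), fun i =>
    (FreeGroup.lift fun t => Multiplicative.ofAdd (if t = ι i then (1 : ℚ) else 0)).comp
      e.symm.toMonoidHom, fun i j => ?_⟩
  show Multiplicative.toAdd ((FreeGroup.lift fun t =>
    Multiplicative.ofAdd (if t = ι i then (1 : ℚ) else 0)) (e.symm (e (FreeGroup.of (ι j))))) = _
  rw [MulEquiv.symm_apply_apply, FreeGroup.lift_apply_of, toAdd_ofAdd]
  by_cases hij : i = j
  · subst hij; simp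
  · have : ¬ ι j = ι i := fun h => hij (hι h).symm
    simp [this, hij]

end rank

/-- Unitriangular `4 × 4` matrices with rows `(1, p, s, u)`, `(0, 1, q, t)`, `(0, 0, 1, r)`,
`(0, 0, 0, 1)`. -/
@[ext]
structure U4 where
  p : ℚ
  q : ℚ
  r : ℚ
  s : ℚ
  t : ℚ
  u : ℚ

namespace U4

instance : Mul U4 := ⟨fun a b => ⟨a.p + b.p, a.q + b.q, a.r + b.r, a.s + b.s + a.p * b.q,
  a.t + b.t + a.q * b.r, a.u + b.u + a.p * b.t + a.s * b.r⟩⟩
instance : One U4 := ⟨⟨0, 0, 0, 0, 0, 0⟩⟩
instance : Inv U4 := ⟨fun a => ⟨-a.p, -a.q, -a.r, -a.s + a.p * a.q, -a.t + a.q * a.r,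
  -a.u + a.p * a.t + a.s * a.r - a.p * a.q * a.r⟩⟩

@[simp] theorem mul_p (a b : U4) : (a * b).p = a.p + b.p := rfl
@[simp] theorem mul_q (a b : U4) : (a * b).q = a.q + b.q := rfl
@[simp] theorem mul_r (a b : U4) : (a * b).r = a.r + b.r := rfl
@[simp] theorem mul_s (a b : U4) : (a * b).s = a.s + b.s + a.p * b.q := rfl
@[simp] theorem mul_t (a b : U4) : (a * b).t = a.t + b.t + a.q * b.r := rfl
@[simp] theorem mul_u (a b : U4) : (a * b).u = a.u + b.u + a.p * b.t + a.s * b.r := rfl
@[simp] theorem one_p : (1 : U4).p = 0 := rfl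
@[simp] theorem one_q : (1 : U4).q = 0 := rfl
@[simp] theorem one_r : (1 : U4).r = 0 := rfl
@[simp] theorem one_s : (1 : U4).s = 0 := rfl
@[simp] theorem one_t : (1 : U4).t = 0 := rfl
@[simp] theorem one_u : (1 : U4).u = 0 := rfl
@[simp] theorem inv_p (a : U4) : a⁻¹.p = -a.p := rfl
@[simp] theorem inv_q (a : U4) : a⁻¹.q = -a.q := rfl
@[simp] theorem inv_r (a : U4) : a⁻¹.r = -a.r := rfl
@[simp] theorem inv_s (a : U4) : a⁻¹.s = -a.s + a.p * a.q := rfl
@[simp] theorem inv_t (a : U4) : a⁻¹.t = -a.t + a.q * a.r := rfl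
@[simp] theorem inv_u (a : U4) :
    a⁻¹.u = -a.u + a.p * a.t + a.s * a.r - a.p * a.q * a.r := rfl

instance : Group U4 where
  mul_assoc a b c := by ext <;> simp <;> ring
  one_mul a := by ext <;> simp
  mul_one a := by ext <;> simp
  inv_mul_cancel a := by ext <;> simp <;> ring

/-- central elements -/
def cen (c : ℚ) : U4 := ⟨0, 0, 0, 0, 0, c⟩

theorem cen_comm (c : ℚ) (a : U4) : cen c * a = a * cen c := by
  ext <;> simp [cen] <;> ring

theorem cen_mul (c d : ℚ) : cen c * cen d = cen (c + d) := by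
  ext <;> simp [cen]

theorem cen_zero : cen 0 = 1 := rfl

theorem cen_inv (c : ℚ) : (cen c)⁻¹ = cen (-c) := by
  ext <;> simp [cen]

theorem cen_zpow (c : ℚ) (k : ℤ) : (cen c) ^ k = cen (k * c) := by
  induction k with
  | zero => simp [cen_zero]
  | succ n ih => rw [zpow_add_one, ih, cen_mul]; congr 1; push_cast; ring
  | pred n ih => rw [zpow_sub_one, ih, cen_inv, cen_mul]; congr 1; push_cast; ring

/-- the value of a triple commutator -/
theorem comm3 (a b c : U4) : ⁅⁅a, b⁆, c⁆ =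
    cen ((a.p * b.q - b.p * a.q) * c.r - c.p * (a.q * b.r - b.q * a.r)) := by
  rw [commutatorElement_def, commutatorElement_def]
  ext <;> simp [cen] <;> ring

end U4

end Pool.Agent.Q24.Ech
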